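import Pool.Agent.V11276.PowBin2

/-!
# Weighted sums of binomial power sums modulo `2 n`

For all `n ≥ 1` and `r ≥ 0` the number `2 n` divides
`∑_{k < n} (-1)^(r k) (3 k + 2) ∑_{j ≤ k} binom(k, j)^r`.
-/

set_option autoImplicit false

namespace Pool.Agent.Results.MP_ede29a_nt.AllExponents

/-- For all `r ≥ 0` and `n ≥ 1`, `2 n` divides `∑_{k < n} (-1)^(r k) (3 k + 2) f_k^(r)`. -/
theorem result (r n : ℕ) (_hn : 1 ≤ n) :
    (2 * (n : ℤ)) ∣ ∑ k ∈ Finset.range n, (-1 : ℤ) ^ (r * k) * (3 * (k : ℤ) + 2) *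
      ∑ j ∈ Finset.range (k + 1), (k.choose j : ℤ) ^ r :=
  Pool.Agent.V11276.PowBin.two_dvd n r

end Pool.Agent.Results.MP_ede29a_nt.AllExponents
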